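import Pool.Agent.H83.BorDim2

set_option autoImplicit false

namespace Pool.Agent.Results.MP_d9d12d_lc.BorelImages

open scoped NNReal

/-- Cantor space `2^ω`. -/
def Cantor : Type := ℕ → Bool

/-- The metric `d(x,y) = 2^{-n}`, `n` the least index where `x` and `y` differ. -/
noncomputable instance : MetricSpace Cantor := PiNat.metricSpace (E := fun _ => Bool)

/-- Borel maps: preimages of open sets are Borel. -/
def IsBorelMap (f : Cantor → Cantor) : Prop :=
  ∀ U : Set Cantor, IsOpen U → @MeasurableSet Cantor (borel Cantor) (f ⁻¹' U)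

theorem result (CH : (Cardinal.continuum : Cardinal.{0}) = Cardinal.aleph 1)
    (s : ℝ≥0) (hs : s ≤ 1) :
    (∀ x y : Cantor, x ≠ y → dist x y = (1 / 2 : ℝ) ^ sInf {n : ℕ | x n ≠ y n}) ∧
    ∃ E : Set Cantor, dimH E = s ∧
      ∀ f : Cantor → Cantor, IsBorelMap f → dimH (f '' E) ≤ s := by
  constructor
  · intro x y hxy
    refine (PiNat.dist_eq_of_ne (E := fun _ => Bool) hxy).trans ?_
    congr 1
    refine le_antisymm (le_csInf ⟨_, PiNat.apply_firstDiff_ne (E := fun _ => Bool) hxy⟩
      fun n hn => ?_) (Nat.sInf_le (PiNat.apply_firstDiff_ne (E := fun _ => Bool) hxy))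
    by_contra hc
    exact hn (PiNat.apply_eq_of_lt_firstDiff (E := fun _ => Bool) (not_le.1 hc))
  · obtain ⟨E, h1, h2⟩ := Pool.Agent.H83.BorDim.main CH s hs
    refine ⟨E, h1, fun f hf => h2 f (measurable_of_isOpen fun U hU => ?_)⟩
    have := hf U hU
    have e : (inferInstance : MeasurableSpace (ℕ → Bool)) = borel (ℕ → Bool) :=
      BorelSpace.measurable_eq
    exact e.ge _ this

end Pool.Agent.Results.MP_d9d12d_lc.BorelImages
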